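import Mathlib
import Pool.Agent.Helper35.EC.Geom

/-!
# MP_0db605_an, piece EC-T5 : calculus for the explicit functions `DD`, `psi`
-/

namespace EC

namespace CalcAux

theorem pos_of_nonpos {x : ℝ} (h : x ≤ 0) : pos x = 0 := max_eq_right h

theorem pos_of_nonneg {x : ℝ} (h : 0 ≤ x) : pos x = x := max_eq_left h

theorem pos_nonneg (x : ℝ) : 0 ≤ pos x := le_max_right _ _

theorem continuous_pos : Continuous pos := continuous_id.max continuous_const

theorem hasDerivAt_pos_pow (n : ℕ) (x : ℝ) :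
    HasDerivAt (fun t => pos t ^ (n + 2)) (((n : ℝ) + 2) * pos x ^ (n + 1)) x := by
  have hpow : ∀ x : ℝ, HasDerivAt (fun t : ℝ => t ^ (n + 2)) (((n : ℝ) + 2) * x ^ (n + 1)) x := by
    intro x
    have := hasDerivAt_pow (n + 2) x
    refine this.congr_deriv ?_
    push_cast
    simp
  rcases lt_trichotomy x 0 with h | h | h
  · have h1 : (fun t => pos t ^ (n + 2)) =ᶠ[nhds x] fun _ => (0 : ℝ) := by
      filter_upwards [Iio_mem_nhds h] with t ht
      rw [pos_of_nonpos (le_of_lt ht)]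
      simp
    rw [pos_of_nonpos h.le]
    simpa using (hasDerivAt_const x (0 : ℝ)).congr_of_eventuallyEq h1
  · subst h
    rw [pos_of_nonpos le_rfl]
    have h1 : HasDerivWithinAt (fun t => pos t ^ (n + 2)) (((n : ℝ) + 2) * 0 ^ (n + 1))
        (Set.Iic 0) 0 := by
      have : HasDerivWithinAt (fun _ : ℝ => (0 : ℝ)) (((n : ℝ) + 2) * 0 ^ (n + 1)) (Set.Iic 0) 0 := by
        simpa using hasDerivWithinAt_const (0 : ℝ) (Set.Iic (0 : ℝ)) (0 : ℝ)
      refine this.congr (fun t ht => ?_) ?_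
      · rw [pos_of_nonpos ht]; simp
      · rw [pos_of_nonpos le_rfl]; simp
    have h2 : HasDerivWithinAt (fun t => pos t ^ (n + 2)) (((n : ℝ) + 2) * 0 ^ (n + 1))
        (Set.Ici 0) 0 := by
      refine (hpow 0).hasDerivWithinAt.congr (fun t ht => ?_) ?_
      · rw [pos_of_nonneg ht]
      · rw [pos_of_nonneg le_rfl]
    have h3 := h1.union h2
    rw [Set.Iic_union_Ici, hasDerivWithinAt_univ] at h3
    exact h3
  · have h1 : (fun t => pos t ^ (n + 2)) =ᶠ[nhds x] fun t => t ^ (n + 2) := by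
      filter_upwards [Ioi_mem_nhds h] with t ht
      rw [pos_of_nonneg (le_of_lt ht)]
    rw [pos_of_nonneg h.le]
    exact (hpow x).congr_of_eventuallyEq h1

theorem hasDerivAt_pos_sq (x : ℝ) : HasDerivAt (fun t => pos t ^ 2) (2 * pos x) x := by
  have := hasDerivAt_pos_pow 0 x
  simpa using this

theorem hasDerivAt_pos_cube (x : ℝ) : HasDerivAt (fun t => pos t ^ 3) (3 * pos x ^ 2) x := by
  have := hasDerivAt_pos_pow 1 x
  norm_num at this
  exact this

theorem pos_sq_comp {f : ℝ → ℝ} {f' t : ℝ} (hf : HasDerivAt f f' t) :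
    HasDerivAt (fun s => pos (f s) ^ 2) (2 * pos (f t) * f') t :=
  HasDerivAt.comp t (h₂ := fun t => pos t ^ 2) (h := f) (hasDerivAt_pos_sq (f t)) hf

theorem pos_cube_comp {f : ℝ → ℝ} {f' t : ℝ} (hf : HasDerivAt f f' t) :
    HasDerivAt (fun s => pos (f s) ^ 3) (3 * pos (f t) ^ 2 * f') t :=
  HasDerivAt.comp t (h₂ := fun t => pos t ^ 3) (h := f) (hasDerivAt_pos_cube (f t)) hf

theorem contDiff_pos_pow (n : ℕ) : ContDiff ℝ 1 (fun t => pos t ^ (n + 2)) := by
  rw [contDiff_one_iff_deriv]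
  refine ⟨fun x => (hasDerivAt_pos_pow n x).differentiableAt, ?_⟩
  have : deriv (fun t => pos t ^ (n + 2)) = fun x => ((n : ℝ) + 2) * pos x ^ (n + 1) := by
    funext x
    exact (hasDerivAt_pos_pow n x).deriv
  rw [this]
  exact continuous_const.mul (continuous_pos.pow _)

theorem contDiff_pos_sq : ContDiff ℝ 1 (fun t => pos t ^ 2) := contDiff_pos_pow 0

theorem contDiff_pos_cube : ContDiff ℝ 1 (fun t => pos t ^ 3) := contDiff_pos_pow 1

theorem Det_pos {h : ℝ} (h0 : 0 < h) (u y w z : ℝ) : 0 < Det h u y w z := by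
  unfold Det
  positivity

theorem k2_sq (u : ℝ) : k2 u ^ 2 = pos (u - 2) ^ 2 + pos (-u - 2) ^ 2 := by
  unfold k2
  rcases le_total u 0 with h | h
  · rw [pos_of_nonpos (show u - 2 ≤ 0 by linarith)]; ring
  · rw [pos_of_nonpos (show -u - 2 ≤ 0 by linarith)]; ring

theorem k1_sq (u : ℝ) : k1 u ^ 2 = pos (u - 1) ^ 2 + pos (-u - 1) ^ 2 := by
  unfold k1
  rcases le_total u 0 with h | h
  · rw [pos_of_nonpos (show u - 1 ≤ 0 by linarith)]; ring
  · rw [pos_of_nonpos (show -u - 1 ≤ 0 by linarith)]; ring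

theorem hasDerivAt_Theta {h : ℝ} (W : ℝ) : HasDerivAt (Theta h) (Phi h W) W := by
  unfold Theta
  have h1 : HasDerivAt (fun W : ℝ => W ^ 2 / 2) W W := by
    have := (hasDerivAt_pow 2 W).div_const 2
    refine this.congr_deriv ?_
    norm_num
  have h2 := hasDerivAt_pos_sq W
  have h3 : HasDerivAt (fun W : ℝ => pos (W - 2 * h) ^ 2) (2 * pos (W - 2 * h)) W := by
    have := pos_sq_comp ((hasDerivAt_id' W).sub_const (2 * h))
    refine this.congr_deriv ?_
    ring
  have h4 := h1.add ((h2.sub h3).const_mul ((4 / h - 1) / 2))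
  refine h4.congr_deriv ?_
  unfold Phi
  ring

end CalcAux

open CalcAux

theorem DD_hasDerivAt {h : ℝ} (h0 : 0 < h) {u y w z : ℝ → ℝ}
    {u' y' w' z' t : ℝ} (hu : HasDerivAt u u' t) (hy : HasDerivAt y y' t)
    (hw : HasDerivAt w w' t) (hz : HasDerivAt z z' t) :
    HasDerivAt (fun s => DD h (u s) (y s) (w s) (z s))
      (2 * ((Pf h (u t) (pf h (u t) (y t)) - GaP h (u t) (y t) (w t) (z t)) * u'
        + (4 * pf h (u t) (y t) - GaQ h (u t) (y t) (w t) (z t)) * y'
        + (w t - GaR h (u t) (y t) (w t) (z t)) * w'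
        + (z t - GaS h (u t) (y t) (w t) (z t)) * z')) t := by
  have hD := Det_pos h0 (u t) (y t) (w t) (z t)
  have e1 : HasDerivAt (fun s => Theta h (y s - h * u s ^ 3))
      (Phi h (y t - h * u t ^ 3) * (y' - h * (3 * u t ^ 2 * u'))) t := by
    have h1 : HasDerivAt (fun s => y s - h * u s ^ 3) (y' - h * (3 * u t ^ 2 * u')) t := by
      have := hy.sub ((hu.pow 3).const_mul h)
      refine this.congr_deriv ?_
      norm_num
    exact (hasDerivAt_Theta (h := h) (y t - h * u t ^ 3)).comp t h1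
  have e2 : HasDerivAt (fun s => pos (u s - 1) ^ 2) (2 * pos (u t - 1) * u') t :=
    pos_sq_comp (hu.sub_const 1)
  have e3 : HasDerivAt (fun s => pos (-u s) ^ 3) (3 * pos (-u t) ^ 2 * (-u')) t :=
    pos_cube_comp hu.neg
  have e4 : HasDerivAt (fun s => pos (-u s - 1 / 2) ^ 3) (3 * pos (-u t - 1 / 2) ^ 2 * (-u')) t :=
    pos_cube_comp (hu.neg.sub_const (1 / 2))
  have e5 : HasDerivAt (fun s => u s ^ 4) (4 * u t ^ 3 * u') t := by
    have := hu.pow 4
    refine this.congr_deriv ?_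
    norm_num
  have e6 : ∀ {f : ℝ → ℝ} {f' : ℝ}, HasDerivAt f f' t →
      HasDerivAt (fun s => f s ^ 2) (2 * f t * f') t := by
    intro f f' hf
    have := hf.pow 2
    refine this.congr_deriv ?_
    norm_num
  have e7 : HasDerivAt (fun s => dd (u s) (y s) (w s) (z s))
      (2 * u t * u' - 2 * y t * y' - 2 * w t * w' + 2 * z t * z') t :=
    (((e6 hu).sub (e6 hy)).sub (e6 hw)).add (e6 hz)
  have e8 : HasDerivAt (fun s => Det h (u s) (y s) (w s) (z s))
      (2 * h * (2 * u t * u' + 2 * y t * y' + 2 * w t * w' + 2 * z t * z') +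
        h ^ 2 * (2 * dd (u t) (y t) (w t) (z t) *
          (2 * u t * u' - 2 * y t * y' - 2 * w t * w' + 2 * z t * z'))) t := by
    have h1 := (((e6 hu).add (e6 hy)).add (e6 hw)).add (e6 hz)
    have h2 := ((h1.const_mul (2 * h)).const_add 1).add ((e6 e7).const_mul (h ^ 2))
    exact h2
  have e9 : HasDerivAt (fun s => Real.log (Det h (u s) (y s) (w s) (z s)))
      ((2 * h * (2 * u t * u' + 2 * y t * y' + 2 * w t * w' + 2 * z t * z') +
        h ^ 2 * (2 * dd (u t) (y t) (w t) (z t) *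
          (2 * u t * u' - 2 * y t * y' - 2 * w t * w' + 2 * z t * z'))) /
        Det h (u t) (y t) (w t) (z t)) t := e8.log hD.ne'
  have e10 := ((((e1.const_mul 2).add e2).add ((e3.sub e4).const_mul (2 / 3))).add
    (e5.const_mul (2 * h)))
  have e11 := ((e10.add (e6 hw)).add (e6 hz)).sub (e9.const_mul (1 / (2 * h)))
  refine e11.congr_deriv ?_
  unfold Pf pf GaP GaQ GaR GaS kf
  field_simp
  ring

theorem psi_hasDerivAt {h K : ℝ} (h0 : 0 < h) (hK : 0 < K) {u y w z : ℝ → ℝ}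
    {u' y' w' z' t : ℝ} (hu : HasDerivAt u u' t) (hy : HasDerivAt y y' t)
    (hw : HasDerivAt w w' t) (hz : HasDerivAt z z' t) :
    HasDerivAt (fun s => psi h K (u s) (y s) (w s) (z s))
      (2 * (HP h K (u t) (y t) (w t) (z t) * u' + HQ h K (u t) (y t) (w t) (z t) * y'
        + HR h K (u t) (y t) (w t) (z t) * w' + HS h K (u t) (y t) (w t) (z t) * z')) t := by
  have e6 : ∀ {f : ℝ → ℝ} {f' : ℝ}, HasDerivAt f f' t →
      HasDerivAt (fun s => f s ^ 2) (2 * f t * f') t := by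
    intro f f' hf
    have := hf.pow 2
    refine this.congr_deriv ?_
    norm_num
  have e1 : HasDerivAt (fun s => k2 (u s) ^ 2) (2 * k2 (u t) * u') t := by
    simp only [k2_sq]
    have h1 : HasDerivAt (fun s => pos (u s - 2) ^ 2) (2 * pos (u t - 2) * u') t :=
      pos_sq_comp (hu.sub_const 2)
    have h2 : HasDerivAt (fun s => pos (-u s - 2) ^ 2) (2 * pos (-u t - 2) * (-u')) t :=
      pos_sq_comp (hu.neg.sub_const 2)
    refine (h1.add h2).congr_deriv ?_
    unfold k2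
    ring
  have e2 : HasDerivAt (fun s => k1 (y s) ^ 2) (2 * k1 (y t) * y') t := by
    simp only [k1_sq]
    have h1 : HasDerivAt (fun s => pos (y s - 1) ^ 2) (2 * pos (y t - 1) * y') t :=
      pos_sq_comp (hy.sub_const 1)
    have h2 : HasDerivAt (fun s => pos (-y s - 1) ^ 2) (2 * pos (-y t - 1) * (-y')) t :=
      pos_sq_comp (hy.neg.sub_const 1)
    refine (h1.add h2).congr_deriv ?_
    unfold k1
    ring
  have e3 : HasDerivAt (fun s => NN (u s) (y s) (w s) (z s))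
      (2 * k2 (u t) * u' + 2 * k1 (y t) * y' + 2 * w t * w' + 2 * z t * z') t :=
    ((e1.add e2).add (e6 hw)).add (e6 hz)
  have e4 : HasDerivAt (fun s => eta K (u s) (y s) (w s) (z s))
      (2 * theta K (u t) (y t) (w t) (z t) *
        (-((2 * k2 (u t) * u' + 2 * k1 (y t) * y' + 2 * w t * w' + 2 * z t * z') / K ^ 2))) t := by
    have h1 := (e3.div_const (K ^ 2)).const_sub 1
    exact pos_sq_comp h1
  have e5 := e4.mul (DD_hasDerivAt h0 hu hy hw hz)
  refine e5.congr_deriv ?_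
  unfold HP HQ HR HS tau
  field_simp
  ring

theorem psi_contDiffAt {E : Type*} [NormedAddCommGroup E] [NormedSpace ℝ E] {h K : ℝ}
    (h0 : 0 < h) (hK : 0 < K) {u y w z : E → ℝ} {x : E}
    (hu : ContDiffAt ℝ 1 u x) (hy : ContDiffAt ℝ 1 y x) (hw : ContDiffAt ℝ 1 w x)
    (hz : ContDiffAt ℝ 1 z x) :
    ContDiffAt ℝ 1 (fun s => psi h K (u s) (y s) (w s) (z s)) x := by
  have s2 : ∀ {f : E → ℝ}, ContDiffAt ℝ 1 f x → ContDiffAt ℝ 1 (fun s => pos (f s) ^ 2) x :=
    fun hf => contDiff_pos_sq.contDiffAt.comp x hf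
  have s3 : ∀ {f : E → ℝ}, ContDiffAt ℝ 1 f x → ContDiffAt ℝ 1 (fun s => pos (f s) ^ 3) x :=
    fun hf => contDiff_pos_cube.contDiffAt.comp x hf
  have c : ∀ r : ℝ, ContDiffAt ℝ 1 (fun _ : E => r) x := fun r => contDiffAt_const
  have hdd : ContDiffAt ℝ 1 (fun s => dd (u s) (y s) (w s) (z s)) x :=
    (((hu.pow 2).sub (hy.pow 2)).sub (hw.pow 2)).add (hz.pow 2)
  have hDet : ContDiffAt ℝ 1 (fun s => Det h (u s) (y s) (w s) (z s)) x :=
    ((c 1).add ((c (2 * h)).mul ((((hu.pow 2).add (hy.pow 2)).add (hw.pow 2)).add (hz.pow 2)))).add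
      ((c (h ^ 2)).mul (hdd.pow 2))
  have hlog := hDet.log (Det_pos h0 (u x) (y x) (w x) (z x)).ne'
  have hW : ContDiffAt ℝ 1 (fun s => y s - h * u s ^ 3) x := hy.sub ((c h).mul (hu.pow 3))
  have hTheta : ContDiffAt ℝ 1 (fun s => Theta h (y s - h * u s ^ 3)) x :=
    ((hW.pow 2).div_const 2).add
      ((c ((4 / h - 1) / 2)).mul ((s2 hW).sub (s2 (hW.sub (c (2 * h))))))
  have hSd : ContDiffAt ℝ 1 (fun s => Sd h (u s) (y s)) x :=
    ((((c 2).mul hTheta).add (s2 (hu.sub (c 1)))).add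
      ((c (2 / 3)).mul ((s3 hu.neg).sub (s3 (hu.neg.sub (c (1 / 2))))))).add
      ((c (2 * h)).mul (hu.pow 4))
  have hDD : ContDiffAt ℝ 1 (fun s => DD h (u s) (y s) (w s) (z s)) x :=
    ((hSd.add (hw.pow 2)).add (hz.pow 2)).sub ((c (1 / (2 * h))).mul hlog)
  have hNN : ContDiffAt ℝ 1 (fun s => NN (u s) (y s) (w s) (z s)) x := by
    unfold NN
    simp only [k2_sq, k1_sq]
    exact ((((s2 (hu.sub (c 2))).add (s2 (hu.neg.sub (c 2)))).add
      ((s2 (hy.sub (c 1))).add (s2 (hy.neg.sub (c 1))))).add (hw.pow 2)).add (hz.pow 2)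
  have heta : ContDiffAt ℝ 1 (fun s => eta K (u s) (y s) (w s) (z s)) x :=
    s2 ((c 1).sub (hNN.div_const (K ^ 2)))
  exact heta.mul hDD

end EC
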