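import Mathlib
import Pool.Agent.Helper35.EC.SliceWall
import Pool.Agent.Helper35.EC.SliceZero
import Pool.Agent.Helper35.EC.KsZero
import Pool.Agent.Helper35.EC.Zone
import Pool.Agent.Helper94.EC.Bounds
import Pool.Agent.Helper16.EC.Zone2
import Pool.Agent.Helper94.EC.Zone3
import Pool.Agent.Helper43.EC.Zone4
import Pool.Agent.Helper21.EC.Zone5
import Pool.Agent.Helper23.EC.Eta

/-!
# MP_0db605_an, EC-Z6 : assembly of `Kab_pos`
-/

set_option autoImplicit false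

namespace EC

/-- final arithmetic, case I -/
theorem kp_case1 {Eb Fdd Faa T1 T2 T3 T4 T5 N e : ℝ} (hE0 : 0 ≤ Eb) (hE : Eb ≤ 1 / 2) (hN : 0 < N)
    (hF : -(1 / 50) * N ≤ Fdd) (hA : 3 / 4 * N ≤ Faa)
    (he : |T1| + |T2| + |T3| + |T4| + |T5| ≤ e) (he' : e ≤ 1 / 100 * N) :
    0 < Eb * Fdd + (1 - Eb) * Faa + T1 - T2 + T3 - T4 - T5 := by
  have h1 := neg_abs_le T1
  have h2 := le_abs_self T2
  have h3 := neg_abs_le T3
  have h4 := le_abs_self T4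
  have h5 := le_abs_self T5
  have h6 : Eb * (-(1 / 50) * N) ≤ Eb * Fdd := mul_le_mul_of_nonneg_left hF hE0
  have h7 : (1 - Eb) * (3 / 4 * N) ≤ (1 - Eb) * Faa := mul_le_mul_of_nonneg_left hA (by linarith)
  have h8 : Eb * N ≤ 1 / 2 * N := mul_le_mul_of_nonneg_right hE hN.le
  have h9 : 0 ≤ Eb * N := mul_nonneg hE0 hN.le
  linarith only [hN, he, he', h1, h2, h3, h4, h5, h6, h7, h8]

/-- final arithmetic, case II -/
theorem kp_case2 {Eb Fdd Faa T1 T2 T3 T4 T5 N S Z s2 K h : ℝ} (hE0 : 1 / 2 ≤ Eb) (hE : Eb ≤ 1)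
    (hK : 10 ^ 15 ≤ K) (hhK : h * K ^ 2 ≤ 1 / 1000) (h0 : 0 < h)
    (hN : 0 ≤ N) (hS : 0 ≤ S) (hZ : 0 ≤ Z) (hs2 : 0 ≤ s2)
    (hE2 : s2 / (32 * K ^ 2) ≤ 1 - Eb)
    (hF : S + 3 / 4 * Z - h * s2 * N ≤ Fdd) (hA : 3 / 4 * N ≤ Faa)
    (he1 : |T1| ≤ 1 / 1000 * (S + Z + s2 * N / K ^ 2))
    (he2 : |T2| + |T3| ≤ 1 / 1000 * (S + Z + s2 * N / K ^ 2))
    (he4 : |T4| ≤ 1 / 1000 * (S + Z + s2 * N / K ^ 2))
    (he5 : |T5| ≤ 1 / 1000 * (S + Z + s2 * N / K ^ 2))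
    (hle : Eb * Fdd + (1 - Eb) * Faa + T1 - T2 + T3 - T4 - T5 ≤ 0) :
    S = 0 ∧ Z = 0 ∧ s2 * N = 0 := by
  have h1 := neg_abs_le T1
  have h2 := le_abs_self T2
  have h3 := neg_abs_le T3
  have h4 := le_abs_self T4
  have h5 := le_abs_self T5
  have hK0 : 0 < K := by linarith only [hK]
  have hK2 : 0 < K ^ 2 := by positivity
  have h6 : Eb * (S + 3 / 4 * Z - h * s2 * N) ≤ Eb * Fdd :=
    mul_le_mul_of_nonneg_left hF (by linarith only [hE0])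
  have h7 : (1 - Eb) * (3 / 4 * N) ≤ (1 - Eb) * Faa := mul_le_mul_of_nonneg_left hA (by linarith only [hE])
  have h8 : s2 / (32 * K ^ 2) * (3 / 4 * N) ≤ (1 - Eb) * (3 / 4 * N) :=
    mul_le_mul_of_nonneg_right hE2 (by linarith only [hN])
  have h9 : 0 ≤ s2 * N := mul_nonneg hs2 hN
  set q := s2 * N / K ^ 2 with hq
  have hq0 : 0 ≤ q := by positivity
  have h10 : s2 / (32 * K ^ 2) * (3 / 4 * N) = 3 / 128 * q := by
    rw [hq]; field_simp; ring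
  have h11 : h * s2 * N ≤ 1 / 1000 * q := by
    have : h * s2 * N = (h * K ^ 2) * q := by rw [hq]; field_simp
    rw [this]
    exact mul_le_mul_of_nonneg_right hhK hq0
  have h12 : 0 ≤ h * s2 * N := by positivity
  have h13 : 1 / 2 * (S + 3 / 4 * Z) ≤ Eb * (S + 3 / 4 * Z) :=
    mul_le_mul_of_nonneg_right hE0 (by positivity)
  have h14 : Eb * (h * s2 * N) ≤ 1 * (h * s2 * N) := mul_le_mul_of_nonneg_right hE h12
  have h15 : Eb * (S + 3 / 4 * Z - h * s2 * N) = Eb * (S + 3 / 4 * Z) - Eb * (h * s2 * N) := by ring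
  have hSz : S = 0 := by linarith only [hS, hZ, hle, h1, h2, h3, h4, h5, h6, h7, h8, he1, he2, he4, he5, hq0, h10, h11, h13, h14]
  have hZz : Z = 0 := by linarith only [hZ, hS, hle, h1, h2, h3, h4, h5, h6, h7, h8, he1, he2, he4, he5, hq0, h10, h11, h13, h14]
  have hqz : q = 0 := by linarith
  refine ⟨hSz, hZz, ?_⟩
  rw [hq, div_eq_zero_iff] at hqz
  rcases hqz with h | h
  · exact h
  · exact absurd h hK2.ne'

/-- the estimate for `E E' - (E + E') / 2` -/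
theorem kp_EE {E E' x x' : ℝ} (h0 : 0 ≤ E) (h1 : E ≤ 1) (h0' : 0 ≤ E') (h1' : E' ≤ 1)
    (hx : 1 - E ≤ 2 * x) (hx' : 1 - E' ≤ 2 * x') : |E * E' - (E + E') / 2| ≤ x + x' := by
  have h2 : 0 ≤ (1 - E) * (1 - E') := mul_nonneg (by linarith) (by linarith)
  have h3 : (1 - E) * (1 - E') ≤ (1 - E) * 1 := mul_le_mul_of_nonneg_left (by linarith) (by linarith)
  have h4 : (1 - E) * (1 - E') ≤ 1 * (1 - E') := mul_le_mul_of_nonneg_right (by linarith) (by linarith)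
  rw [abs_le]
  constructor <;> linarith only [hx, hx', h2, h1', h3]

/-- the difference of the cutoff vectors -/
theorem kp_dp {S a b u u' y y' : ℝ} (hS : 0 ≤ S) (ha : a = u' - u) (hb : b = y' - y)
    (HU : k2 u ≠ 0 ∨ k2 u' ≠ 0 → a ^ 2 + b ^ 2 ≤ 10 ^ 3 * S)
    (HV : k1 y ≠ 0 ∨ k1 y' ≠ 0 → b ^ 2 ≤ 10 ^ 5 * S) :
    (k2 u' - k2 u) ^ 2 + (k1 y' - k1 y) ^ 2 ≤ 10 ^ 6 * S := by
  have h1 : (k2 u' - k2 u) ^ 2 ≤ 10 ^ 3 * S := by
    by_cases h : k2 u ≠ 0 ∨ k2 u' ≠ 0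
    · have h2 := HU h
      have h3 : (k2 u' - k2 u) ^ 2 ≤ a ^ 2 := by
        rw [ha]
        exact sq_le_sq.2 (bd_k2_lip u' u)
      linarith only [h2, h3, sq_nonneg b]
    · push Not at h
      rw [h.1, h.2]
      linarith only [hS]
  have h2 : (k1 y' - k1 y) ^ 2 ≤ 10 ^ 5 * S := by
    by_cases h : k1 y ≠ 0 ∨ k1 y' ≠ 0
    · have h2 := HV h
      have h3 : (k1 y' - k1 y) ^ 2 ≤ b ^ 2 := by
        rw [hb]
        exact sq_le_sq.2 (bd_k1_lip y' y)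
      linarith
    · push Not at h
      rw [h.1, h.2]
      linarith only [hS]
  linarith

/-- size of `(1 - E) G + E P` -/
theorem kp_conv {E G P B : ℝ} (h0 : 0 ≤ E) (h1 : E ≤ 1) (hG : |G| ≤ B) (hP : |P| ≤ B) :
    |G + E * (P - G)| ≤ B := by
  rw [abs_le] at *
  have a1 := mul_le_mul_of_nonneg_left hP.2 h0
  have a2 := mul_le_mul_of_nonneg_left hP.1 h0
  have a3 := mul_le_mul_of_nonneg_left hG.2 (sub_nonneg.2 h1)
  have a4 := mul_le_mul_of_nonneg_left hG.1 (sub_nonneg.2 h1)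
  constructor <;> linarith only [a2, a4, a1, a3]

/-- bounds for the momenta of area in the box -/
theorem kp_area {h K u y w z : ℝ} (hK : 10 ^ 15 ≤ K) (h0 : 0 < h)
    (hh : 10 ^ 60 * K ^ 40 * h ≤ 1)
    (hu : |u| ≤ 2 * K) (hy : |y| ≤ 2 * K) (hw : |w| ≤ 2 * K) (hz : |z| ≤ 2 * K) :
    |GaP h u y w z| ≤ 3 * K ∧ |GaQ h u y w z| ≤ |y| + 1 ∧ |GaR h u y w z| ≤ 2 * |w| ∧
      |GaS h u y w z| ≤ 2 * |z| ∧ |GaP h u y w z - u| ≤ 1 ∧ |GaR h u y w z - w| ≤ |w| ∧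
      |GaS h u y w z - z| ≤ |z| := by
  have hK' : (10 : ℝ) ^ 10 ≤ K := by linarith
  obtain ⟨h1, h2, h3, h4⟩ := Ga_close hK' h0 hh hu hy hw hz
  have hK1 : 1 ≤ K := by linarith only [hK]
  have hK20 : 2 * K ≤ K ^ 20 := by
    have : K ^ 2 ≤ K ^ 20 := pow_le_pow_right₀ hK1 (by norm_num)
    nlinarith only [hK, this]
  have hKp : 0 < K ^ 20 := by positivity
  have hb : ∀ x : ℝ, |x| ≤ 2 * K → |x| / K ^ 20 ≤ 1 := by
    intro x hx
    rw [div_le_one hKp]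
    linarith
  have hb' : ∀ x : ℝ, |x| / K ^ 20 ≤ |x| := by
    intro x
    apply div_le_self (abs_nonneg x)
    exact one_le_pow₀ hK1
  have k1 := hb u hu
  have k2 := hb y hy
  have k3 := hb' w
  have k4 := hb' z
  refine ⟨?_, ?_, ?_, ?_, by linarith, by linarith, by linarith⟩
  · have := abs_sub_abs_le_abs_sub (GaP h u y w z) u
    linarith only [hK, hu, h1, k1, this]
  · have := abs_sub_abs_le_abs_sub (GaQ h u y w z) y
    linarith only [h2, k2, this]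
  · have := abs_sub_abs_le_abs_sub (GaR h u y w z) w
    linarith only [h3, k3, this]
  · have := abs_sub_abs_le_abs_sub (GaS h u y w z) z
    linarith

/-- squares from absolute values -/
theorem kp_sq {x B : ℝ} (h : |x| ≤ B) : x ^ 2 ≤ B ^ 2 := by
  have h0 := abs_nonneg x
  rw [← sq_abs x]
  exact pow_le_pow_left₀ h0 h 2

theorem kp_NN_le {K u y w z : ℝ} (hu : |u| ≤ 2 * K) (hy : |y| ≤ 2 * K) (hw : |w| ≤ 2 * K)
    (hz : |z| ≤ 2 * K) : NN u y w z ≤ 16 * K ^ 2 := by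
  unfold NN
  have h1 := kp_sq ((bd_k2_abs u).trans hu)
  have h2 := kp_sq ((bd_k1_abs y).trans hy)
  have h3 := kp_sq hw
  have h4 := kp_sq hz
  linarith

/-- case I in abstract form -/
theorem kp_I {h K m a b c d E E' t t' D1 D2 D3 D4 D1' D2' D3' D4' A1 A2 A3 A4 A1' A2' A3' A4'
    p1 p2 p3 p4 p1' p2' p3' p4' : ℝ}
    (hK : 10 ^ 15 ≤ K) (h0 : 0 < h) (hh : 10 ^ 60 * K ^ 40 * h ≤ 1) (hm0 : 0 ≤ m) (hm : m ≤ 4)
    (ha : |a| ≤ 4 * K) (hb : |b| ≤ 4 * K) (hc : |c| ≤ 4 * K) (hd : |d| ≤ 4 * K)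
    (hE0 : 0 ≤ E) (hE1 : E ≤ 1) (hE0' : 0 ≤ E') (hE1' : E' ≤ 1)
    (hE : (E' - E) ^ 2 ≤ 1000 / K ^ 2 * (a ^ 2 + b ^ 2 + c ^ 2 + d ^ 2))
    (ht : |t| ≤ 160 / K) (ht' : |t'| ≤ 160 / K)
    (hdt : |t' - t| ≤ 1500 / K ^ 2 * Real.sqrt (a ^ 2 + b ^ 2 + c ^ 2 + d ^ 2))
    (h1 : |p1' - p1| ≤ |a|) (h2 : |p2' - p2| ≤ |b|) (h3 : |p3' - p3| ≤ |c|) (h4 : |p4' - p4| ≤ |d|)
    (hD : D1 ^ 2 + D2 ^ 2 + D3 ^ 2 + D4 ^ 2 ≤ 81) (hD' : D1' ^ 2 + D2' ^ 2 + D3' ^ 2 + D4' ^ 2 ≤ 81)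
    (hA : A1 ^ 2 + A2 ^ 2 + A3 ^ 2 + A4 ^ 2 ≤ (10 * K) ^ 2)
    (hA' : A1' ^ 2 + A2' ^ 2 + A3' ^ 2 + A4' ^ 2 ≤ (10 * K) ^ 2)
    (hp : p1 ^ 2 + p2 ^ 2 + p3 ^ 2 + p4 ^ 2 ≤ (4 * K) ^ 2)
    (hp' : p1' ^ 2 + p2' ^ 2 + p3' ^ 2 + p4' ^ 2 ≤ (4 * K) ^ 2)
    (hcase : (E + E') / 2 ≤ 1 / 2) (hN : 0 < a ^ 2 + b ^ 2 + c ^ 2 + d ^ 2)
    (hF : -(1 / 50) * (a ^ 2 + b ^ 2 + c ^ 2 + d ^ 2) ≤
      Ker h m a b c d (A1 + D1) (A2 + D2) (A3 + D3) (A4 + D4)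
        (A1' + D1') (A2' + D2') (A3' + D3') (A4' + D4'))
    (hFa : 3 / 4 * (a ^ 2 + b ^ 2 + c ^ 2 + d ^ 2) ≤
      Ker h m a b c d A1 A2 A3 A4 A1' A2' A3' A4') :
    0 < Ker h m a b c d
      (A1 + (E * D1 - t * p1)) (A2 + (E * D2 - t * p2)) (A3 + (E * D3 - t * p3))
      (A4 + (E * D4 - t * p4))
      (A1' + (E' * D1' - t' * p1')) (A2' + (E' * D2' - t' * p2')) (A3' + (E' * D3' - t' * p3'))
      (A4' + (E' * D4' - t' * p4')) := by
  have herr := err_crude (m := m) hK h0 hh hm0 hm ha hb hc hd hE0 hE1 hE0' hE1' hE ht ht' hdt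
    h1 h2 h3 h4 hD hD' hA hA' hp hp'
  rw [Ker_decomp]
  exact kp_case1 (by linarith only [hE0, hE0']) hcase hN hF hFa herr le_rfl

/-- case II in abstract form -/
theorem kp_II {h K m a b c d S Q Q' E E' t t' D1 D2 D3 D4 D1' D2' D3' D4' A1 A2 A3 A4 A1' A2' A3' A4'
    p1 p2 p3 p4 p1' p2' p3' p4' : ℝ}
    (hK : 10 ^ 15 ≤ K) (h0 : 0 < h) (hh : 10 ^ 60 * K ^ 40 * h ≤ 1) (hm0 : 0 ≤ m) (hm : m ≤ 4)
    (hS : 0 ≤ S)
    (ha : |a| ≤ 4 * K) (hb : |b| ≤ 4 * K) (hc : |c| ≤ 4 * K) (hd : |d| ≤ 4 * K)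
    (hE0 : 0 ≤ E) (hE1 : E ≤ 1) (hE0' : 0 ≤ E') (hE1' : E' ≤ 1)
    (hE : (E' - E) ^ 2 ≤ 16 / K ^ 4 * (p1 ^ 2 + p2 ^ 2 + p3 ^ 2 + p4 ^ 2 +
        (p1' ^ 2 + p2' ^ 2 + p3' ^ 2 + p4' ^ 2)) *
        ((p1' - p1) ^ 2 + (p2' - p2) ^ 2 + (p3' - p3) ^ 2 + (p4' - p4) ^ 2))
    (hEa : (p1 ^ 2 + p2 ^ 2 + p3 ^ 2 + p4 ^ 2) / (16 * K ^ 2) ≤ 1 - E)
    (hEb : 1 - E ≤ 2 * (p1 ^ 2 + p2 ^ 2 + p3 ^ 2 + p4 ^ 2) / K ^ 2)
    (hEa' : (p1' ^ 2 + p2' ^ 2 + p3' ^ 2 + p4' ^ 2) / (16 * K ^ 2) ≤ 1 - E')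
    (hEb' : 1 - E' ≤ 2 * (p1' ^ 2 + p2' ^ 2 + p3' ^ 2 + p4' ^ 2) / K ^ 2)
    (ht : |t| ≤ 160 / K) (ht' : |t'| ≤ 160 / K)
    (hdt : |t' - t| ≤ 1500 / K ^ 2 * Real.sqrt (a ^ 2 + b ^ 2 + c ^ 2 + d ^ 2))
    (h1 : |p1' - p1| ≤ |a|) (h2 : |p2' - p2| ≤ |b|) (h3 : c = p3' - p3) (h4 : d = p4' - p4)
    (hdp : (p1' - p1) ^ 2 + (p2' - p2) ^ 2 ≤ 10 ^ 6 * S)
    (HU : p1 ≠ 0 ∨ p1' ≠ 0 → a ^ 2 + b ^ 2 ≤ 10 ^ 3 * S)
    (HV : p2 ≠ 0 ∨ p2' ≠ 0 → b ^ 2 + h * (a ^ 2 * (1 + Q ^ 2 + Q' ^ 2)) ≤ 10 ^ 5 * S)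
    (hQ : |Q| ≤ 4 * K) (hQ' : |Q'| ≤ 4 * K)
    (hg1 : |A1 + E * D1| ≤ 5 * K) (hg1' : |A1' + E' * D1'| ≤ 5 * K)
    (hg2 : |A2 + E * D2| ≤ |Q| + 10) (hg2' : |A2' + E' * D2'| ≤ |Q'| + 10)
    (hg3 : |A3 + E * D3| ≤ 2 * |p3|) (hg3' : |A3' + E' * D3'| ≤ 2 * |p3'|)
    (hg4 : |A4 + E * D4| ≤ 2 * |p4|) (hg4' : |A4' + E' * D4'| ≤ 2 * |p4'|)
    (hp1 : |p1| ≤ 2 * K) (hp1' : |p1'| ≤ 2 * K) (hp2 : |p2| ≤ |Q| + 9) (hp2' : |p2'| ≤ |Q'| + 9)
    (hp3 : |p3| ≤ 2 * K) (hp3' : |p3'| ≤ 2 * K) (hp4 : |p4| ≤ 2 * K) (hp4' : |p4'| ≤ 2 * K)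
    (hD : D1 ^ 2 + D2 ^ 2 + D3 ^ 2 + D4 ^ 2 ≤ 81) (hD' : D1' ^ 2 + D2' ^ 2 + D3' ^ 2 + D4' ^ 2 ≤ 81)
    (hA : A1 ^ 2 + A2 ^ 2 + A3 ^ 2 + A4 ^ 2 ≤ (10 * K) ^ 2)
    (hA' : A1' ^ 2 + A2' ^ 2 + A3' ^ 2 + A4' ^ 2 ≤ (10 * K) ^ 2)
    (hcase : 1 / 2 < (E + E') / 2)
    (hF : S + 3 / 4 * (c ^ 2 + d ^ 2) - h * (p3 ^ 2 + p4 ^ 2 + p3' ^ 2 + p4' ^ 2) * (a ^ 2 + b ^ 2) ≤
      Ker h m a b c d (A1 + D1) (A2 + D2) (A3 + D3) (A4 + D4)
        (A1' + D1') (A2' + D2') (A3' + D3') (A4' + D4'))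
    (hFa : 3 / 4 * (a ^ 2 + b ^ 2 + c ^ 2 + d ^ 2) ≤
      Ker h m a b c d A1 A2 A3 A4 A1' A2' A3' A4')
    (hle : Ker h m a b c d
      (A1 + (E * D1 - t * p1)) (A2 + (E * D2 - t * p2)) (A3 + (E * D3 - t * p3))
      (A4 + (E * D4 - t * p4))
      (A1' + (E' * D1' - t' * p1')) (A2' + (E' * D2' - t' * p2')) (A3' + (E' * D3' - t' * p3'))
      (A4' + (E' * D4' - t' * p4')) ≤ 0) :
    S = 0 ∧ c ^ 2 + d ^ 2 = 0 ∧ (p1 ^ 2 + p2 ^ 2 + p3 ^ 2 + p4 ^ 2 +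
        (p1' ^ 2 + p2' ^ 2 + p3' ^ 2 + p4' ^ 2)) * (a ^ 2 + b ^ 2 + c ^ 2 + d ^ 2) = 0 := by
  have hK0 : 0 < K := by linarith only [hK]
  have hdpS : (p1' - p1) ^ 2 + (p2' - p2) ^ 2 + (p3' - p3) ^ 2 + (p4' - p4) ^ 2 ≤
      10 ^ 6 * S + (c ^ 2 + d ^ 2) := by
    rw [h3, h4]; linarith only [hdp]
  have hs2 : 0 ≤ p1 ^ 2 + p2 ^ 2 + p3 ^ 2 + p4 ^ 2 +
        (p1' ^ 2 + p2' ^ 2 + p3' ^ 2 + p4' ^ 2) := by positivity
  have hEE : |E * E' - (E + E') / 2| ≤ (p1 ^ 2 + p2 ^ 2 + p3 ^ 2 + p4 ^ 2 +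
        (p1' ^ 2 + p2' ^ 2 + p3' ^ 2 + p4' ^ 2)) / K ^ 2 := by
    have := kp_EE (x := (p1 ^ 2 + p2 ^ 2 + p3 ^ 2 + p4 ^ 2) / K ^ 2)
      (x' := (p1' ^ 2 + p2' ^ 2 + p3' ^ 2 + p4' ^ 2) / K ^ 2) hE0 hE1 hE0' hE1'
      (by rw [← mul_div_assoc]; exact hEb) (by rw [← mul_div_assoc]; exact hEb')
    rw [← add_div] at this
    exact this
  have e1 := err1 (m := m) hK h0 hh hm0 hm hS hs2 (by positivity) hE hdpS hD hD'
    (a := a) (b := b) (c := c) (d := d)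
  have e2 := err23 (m := m) hK h0 hh hm0 hm hS hs2 (by positivity) ha hb hc hd hE hEE hdpS hD hD'
    hA hA'
  have e4 := err4 (m := m) hK h0 hh hm0 hm hS ht ht' hdt h1 h2 h3 h4 HU HV
  have e5 := err5 (m := m) hK h0 hh hm0 hm hS ha hb hc hd ht ht' hQ hQ' hg1 hg1' hg2 hg2' hg3 hg3'
    hg4 hg4' hp1 hp1' hp2 hp2' hp3 hp3' hp4 hp4' HU HV
  have hE2 : (p1 ^ 2 + p2 ^ 2 + p3 ^ 2 + p4 ^ 2 +
        (p1' ^ 2 + p2' ^ 2 + p3' ^ 2 + p4' ^ 2)) / (32 * K ^ 2) ≤ 1 - (E + E') / 2 := by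
    have q1 : (p1 ^ 2 + p2 ^ 2 + p3 ^ 2 + p4 ^ 2 +
        (p1' ^ 2 + p2' ^ 2 + p3' ^ 2 + p4' ^ 2)) / (32 * K ^ 2) =
        1 / 2 * ((p1 ^ 2 + p2 ^ 2 + p3 ^ 2 + p4 ^ 2) / (16 * K ^ 2)) +
        1 / 2 * ((p1' ^ 2 + p2' ^ 2 + p3' ^ 2 + p4' ^ 2) / (16 * K ^ 2)) := by
      field_simp; ring
    rw [q1]
    linarith only [hEa, hEa']
  have hhK : h * K ^ 2 ≤ 1 / 1000 := by
    have q1 := bd_hpow (by linarith only [hK] : (10:ℝ) ^ 10 ≤ K) h0 hh (j := 2) (by norm_num)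
    have q2 : (1:ℝ) / 10 ^ 60 ≤ 1 / 1000 := by norm_num
    linarith only [q1]
  have hF' : S + 3 / 4 * (c ^ 2 + d ^ 2) - h * (p1 ^ 2 + p2 ^ 2 + p3 ^ 2 + p4 ^ 2 +
        (p1' ^ 2 + p2' ^ 2 + p3' ^ 2 + p4' ^ 2)) * (a ^ 2 + b ^ 2 + c ^ 2 + d ^ 2) ≤
      Ker h m a b c d (A1 + D1) (A2 + D2) (A3 + D3) (A4 + D4)
        (A1' + D1') (A2' + D2') (A3' + D3') (A4' + D4') := by
    refine le_trans ?_ hF
    have q1 : h * (p3 ^ 2 + p4 ^ 2 + p3' ^ 2 + p4' ^ 2) * (a ^ 2 + b ^ 2) ≤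
        h * (p1 ^ 2 + p2 ^ 2 + p3 ^ 2 + p4 ^ 2 +
        (p1' ^ 2 + p2' ^ 2 + p3' ^ 2 + p4' ^ 2)) * (a ^ 2 + b ^ 2 + c ^ 2 + d ^ 2) := by
      have r1 : p3 ^ 2 + p4 ^ 2 + p3' ^ 2 + p4' ^ 2 ≤ p1 ^ 2 + p2 ^ 2 + p3 ^ 2 + p4 ^ 2 +
        (p1' ^ 2 + p2' ^ 2 + p3' ^ 2 + p4' ^ 2) := by
        have := sq_nonneg p1
        have := sq_nonneg p2
        have := sq_nonneg p1'
        have := sq_nonneg p2'
        linarith
      have r2 : a ^ 2 + b ^ 2 ≤ a ^ 2 + b ^ 2 + c ^ 2 + d ^ 2 := by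
        have := sq_nonneg c
        have := sq_nonneg d
        linarith
      exact mul_le_mul (mul_le_mul_of_nonneg_left r1 h0.le) r2 (by positivity) (by positivity)
    linarith only [q1]
  rw [Ker_decomp] at hle
  exact kp_case2 hcase.le (by linarith only [hE1, hE1']) hK hhK h0 (by positivity) hS (by positivity) hs2 hE2 hF' hFa
    e1 e2 e4 e5 hle

set_option maxHeartbeats 1000000 in
theorem Kab_pos {h K u y w z u' y' w' z' : ℝ} (hK : 10 ^ 15 ≤ K) (h0 : 0 < h)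
    (hh : 10 ^ 60 * K ^ 40 * h ≤ 1)
    (hu : |u| ≤ 2 * K) (hy : |y| ≤ 2 * K) (hw : |w| ≤ 2 * K) (hz : |z| ≤ 2 * K)
    (hu' : |u'| ≤ 2 * K) (hy' : |y'| ≤ 2 * K) (hw' : |w'| ≤ 2 * K) (hz' : |z'| ≤ 2 * K)
    (hne : ¬ (u' = u ∧ y' = y ∧ w' = w ∧ z' = z))
    (h01 : ¬ (u = 0 ∧ y = 0 ∧ w = 0 ∧ z = 0 ∧ u' = 1 ∧ y' = 2 * h ∧ w' = 0 ∧ z' = 0)) :
    0 < Kab h K u y w z u' y' w' z' := by
  have hK' : (10 : ℝ) ^ 10 ≤ K := by linarith
  have hK0 : 0 < K := by linarith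
  have hh1 : h ≤ 1 := by
    have := bd_h_le hK' h0 hh
    linarith [this, (by norm_num : (1:ℝ) / 10 ^ 60 ≤ 1)]
  -- the twist
  have hm0 : 0 ≤ mh h K u y w z := by
    unfold mh; split_ifs
    · exact mu_nonneg _ _
    · exact le_rfl
  have hm : mh h K u y w z ≤ 4 := by
    unfold mh; split_ifs
    · exact (mu_le _ _).trans (by norm_num)
    · norm_num
  -- bounds in the box
  obtain ⟨hp, hQ⟩ := pf_abs_le hK' h0 hh hu hy
  obtain ⟨hp', hQ'⟩ := pf_abs_le hK' h0 hh hu' hy'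
  have hP := Pf_abs_le hK' h0 hh hu hy
  have hP' := Pf_abs_le hK' h0 hh hu' hy'
  obtain ⟨a1, a2, a3, a4, a5, a6, a7⟩ := kp_area hK h0 hh hu hy hw hz
  obtain ⟨a1', a2', a3', a4', a5', a6', a7'⟩ := kp_area hK h0 hh hu' hy' hw' hz'
  have hD := delta_bound hK' h0 hh hu hy hw hz
  have hD' := delta_bound hK' h0 hh hu' hy' hw' hz'
  have hE0 := (eta_mem K u y w z).1
  have hE1 := (eta_mem K u y w z).2
  have hE0' := (eta_mem K u' y' w' z').1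
  have hE1' := (eta_mem K u' y' w' z').2
  have hEd := eta_diff (u := u) (y := y) (w := w) (z := z) (u' := u') (y' := y') (w' := w')
    (z' := z') hK0
  have hEo := one_sub_eta hK0 hu hy hw hz
  have hEo' := one_sub_eta hK0 hu' hy' hw' hz'
  have ht := tau_bound hK' h0 hh hu hy hw hz
  have ht' := tau_bound hK' h0 hh hu' hy' hw' hz'
  have hdt := tau_lip hK' h0 hh hu hy hw hz hu' hy' hw' hz'
  have hN := kp_NN_le hu hy hw hz
  have hN' := kp_NN_le hu' hy' hw' hz'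
  have hN0 := bd_NN_nonneg u y w z
  have hN0' := bd_NN_nonneg u' y' w' z'
  have hY := bd_k2_lip u' u
  have hY1 := bd_k1_lip y' y
  have hFaa := aa_lower (m := mh h K u y w z) hK' h0 hh hm0 hm hu hy hw hz hu' hy' hw' hz'
  have hPs : |Pf h u (pf h u y)| ≤ 5 * K := by
    have := abs_sub_abs_le_abs_sub (Pf h u (pf h u y)) u
    linarith only [hK, hu, hP, this]
  have hPs' : |Pf h u' (pf h u' y')| ≤ 5 * K := by
    have := abs_sub_abs_le_abs_sub (Pf h u' (pf h u' y')) u'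
    linarith only [hK, hu', hP', this]
  have hQs : |4 * pf h u y| ≤ 4 * K := by
    rw [abs_mul, abs_of_pos (by norm_num : (0:ℝ) < 4)]; linarith only [hp]
  have hQs' : |4 * pf h u' y'| ≤ 4 * K := by
    rw [abs_mul, abs_of_pos (by norm_num : (0:ℝ) < 4)]; linarith only [hp']
  have had : |u' - u| ≤ 4 * K := (abs_sub _ _).trans (by linarith only [hu, hu'])
  have hbd : |y' - y| ≤ 4 * K := (abs_sub _ _).trans (by linarith only [hy, hy'])
  have hcd : |w' - w| ≤ 4 * K := (abs_sub _ _).trans (by linarith only [hw, hw'])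
  have hdd : |z' - z| ≤ 4 * K := (abs_sub _ _).trans (by linarith only [hz, hz'])
  have hFdd := Fdd_lower (m := mh h K u y w z) (a := u' - u) (b := y' - y) hK h0 hh hm0 hm had hbd
    rfl rfl hPs (hQs.trans (by linarith only [hK])) hPs' (hQs'.trans (by linarith only [hK])) hw hz hw' hz'
  -- squared size of the difference
  have hNpos : 0 < (u' - u) ^ 2 + (y' - y) ^ 2 + (w' - w) ^ 2 + (z' - z) ^ 2 := by
    by_contra hc
    push Not at hc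
    have q1 := sq_nonneg (u' - u)
    have q2 := sq_nonneg (y' - y)
    have q3 := sq_nonneg (w' - w)
    have q4 := sq_nonneg (z' - z)
    apply hne
    refine ⟨?_, ?_, ?_, ?_⟩
    · have : (u' - u) ^ 2 = 0 := by linarith only [q1, hc, q2, q3, q4]
      exact sub_eq_zero.1 (pow_eq_zero_iff (two_ne_zero) |>.1 this)
    · have : (y' - y) ^ 2 = 0 := by linarith only [q2, hc, q1, q3, q4]
      exact sub_eq_zero.1 (pow_eq_zero_iff (two_ne_zero) |>.1 this)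
    · have : (w' - w) ^ 2 = 0 := by linarith only [q3, hc, q1, q2, q4]
      exact sub_eq_zero.1 (pow_eq_zero_iff (two_ne_zero) |>.1 this)
    · have : (z' - z) ^ 2 = 0 := by linarith only [q4, hc, q1, q2, q3]
      exact sub_eq_zero.1 (pow_eq_zero_iff (two_ne_zero) |>.1 this)
  have hA81 : GaP h u y w z ^ 2 + GaQ h u y w z ^ 2 + GaR h u y w z ^ 2 + GaS h u y w z ^ 2
      ≤ (10 * K) ^ 2 := by
    have b1 := kp_sq a1
    have b2 := kp_sq (a2.trans (by linarith only [hK, hy] : |y| + 1 ≤ 3 * K))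
    have b3 := kp_sq (a3.trans (by linarith only [hw] : 2 * |w| ≤ 4 * K))
    have b4 := kp_sq (a4.trans (by linarith only [hz] : 2 * |z| ≤ 4 * K))
    have b5 := sq_nonneg K
    linarith only [hN, hN0, b1, b2, b3, b4]
  have hA81' : GaP h u' y' w' z' ^ 2 + GaQ h u' y' w' z' ^ 2 + GaR h u' y' w' z' ^ 2
      + GaS h u' y' w' z' ^ 2 ≤ (10 * K) ^ 2 := by
    have b1 := kp_sq a1'
    have b2 := kp_sq (a2'.trans (by linarith only [hK, hy'] : |y'| + 1 ≤ 3 * K))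
    have b3 := kp_sq (a3'.trans (by linarith only [hw'] : 2 * |w'| ≤ 4 * K))
    have b4 := kp_sq (a4'.trans (by linarith only [hz'] : 2 * |z'| ≤ 4 * K))
    have b5 := sq_nonneg K
    linarith only [hN, hN0, b1, b2, b3, b4]
  have hdp : (k2 u' - k2 u) ^ 2 + (k1 y' - k1 y) ^ 2 + (w' - w) ^ 2 + (z' - z) ^ 2
      ≤ (u' - u) ^ 2 + (y' - y) ^ 2 + (w' - w) ^ 2 + (z' - z) ^ 2 := by
    have b1 := sq_le_sq.2 hY
    have b2 := sq_le_sq.2 hY1
    linarith only [b1, b2]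
  have hdp0 : 0 ≤ (k2 u' - k2 u) ^ 2 + (k1 y' - k1 y) ^ 2 + (w' - w) ^ 2 + (z' - z) ^ 2 := by
    positivity
  have hhK2 : K ^ 2 * h ≤ 1 / 10 ^ 60 := bd_hpow hK' h0 hh (j := 2) (by norm_num)
  -- the design kernel, rewritten
  have e1 : GaP h u y w z + (Pf h u (pf h u y) - GaP h u y w z) = Pf h u (pf h u y) := by ring
  have e2 : GaQ h u y w z + (4 * pf h u y - GaQ h u y w z) = 4 * pf h u y := by ring
  have e3 : GaR h u y w z + (w - GaR h u y w z) = w := by ring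
  have e4 : GaS h u y w z + (z - GaS h u y w z) = z := by ring
  have e1' : GaP h u' y' w' z' + (Pf h u' (pf h u' y') - GaP h u' y' w' z')
    = Pf h u' (pf h u' y') := by ring
  have e2' : GaQ h u' y' w' z' + (4 * pf h u' y' - GaQ h u' y' w' z') = 4 * pf h u' y' := by ring
  have e3' : GaR h u' y' w' z' + (w' - GaR h u' y' w' z') = w' := by ring
  have e4' : GaS h u' y' w' z' + (z' - GaS h u' y' w' z') = z' := by ring
  -- the slice kernel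
  have hR : (1:ℝ) ≤ 2 * K := by linarith only [hK]
  have hRh : 10 ^ 30 * (2 * K) ^ 20 * h ≤ 1 := by
    have r1 : K ^ 20 * h ≤ 1 / 10 ^ 60 := bd_hpow hK' h0 hh (j := 20) (by norm_num)
    have r2 : 10 ^ 30 * (2 * K) ^ 20 * h = 10 ^ 30 * 2 ^ 20 * (K ^ 20 * h) := by ring
    rw [r2]
    have r3 : (10:ℝ) ^ 30 * 2 ^ 20 * (1 / 10 ^ 60) ≤ 1 := by norm_num
    exact (mul_le_mul_of_nonneg_left r1 (by positivity)).trans r3
  have hpR : |pf h u y| ≤ 2 * K := hp.trans (by linarith only [hK])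
  have hpR' : |pf h u' y'| ≤ 2 * K := hp'.trans (by linarith only [hK])
  have hyf := yf_pf (u := u) (y := y) h0 hh1
  have hyf' := yf_pf (u := u') (y := y') h0 hh1
  have hS := Fs_nonneg hR h0 hRh hu hpR hu' hpR'
  have hFs : Fs h u (pf h u y) u' (pf h u' y') =
      Ks h (mu u (pf h u y)) (u' - u) (y' - y) (Pf h u (pf h u y)) (4 * pf h u y)
          (Pf h u' (pf h u' y')) (4 * pf h u' y') := by
    unfold Fs
    rw [hyf, hyf']
  rcases le_or_gt ((eta K u y w z + eta K u' y' w' z') / 2) (1 / 2) with hcase | hcase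
  · -- case I
    have hEd' : (eta K u' y' w' z' - eta K u y w z) ^ 2 ≤ 1000 / K ^ 2 *
        ((u' - u) ^ 2 + (y' - y) ^ 2 + (w' - w) ^ 2 + (z' - z) ^ 2) := by
      refine hEd.trans ?_
      have b1 : 16 / K ^ 4 * (NN u y w z + NN u' y' w' z') ≤ 16 / K ^ 4 * (32 * K ^ 2) :=
        mul_le_mul_of_nonneg_left (by linarith only [hN, hN']) (by positivity)
      have b2 : 16 / K ^ 4 * (32 * K ^ 2) = 512 / K ^ 2 := by field_simp; ring
      rw [b2] at b1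
      have b3 : 512 / K ^ 2 ≤ 1000 / K ^ 2 := by
        apply div_le_div_of_nonneg_right _ (by positivity)
        norm_num
      exact mul_le_mul (b1.trans b3) hdp hdp0 (by positivity)
    have hKs : -(1 / 100) * ((u' - u) ^ 2 + (y' - y) ^ 2)
      ≤ Ks h (mh h K u y w z) (u' - u) (y' - y) (Pf h u (pf h u y)) (4 * pf h u y)
          (Pf h u' (pf h u' y')) (4 * pf h u' y') := by
      unfold mh
      split_ifs with hth
      · rw [← hFs]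
        have q1 := sq_nonneg (u' - u)
        have q2 := sq_nonneg (y' - y)
        linarith only [hS, q1, q2]
      · exact Ks_zero_lower hK h0 hh hu hy hu' hy'
    have hF : -(1 / 50) * ((u' - u) ^ 2 + (y' - y) ^ 2 + (w' - w) ^ 2 + (z' - z) ^ 2) ≤
      Ker h (mh h K u y w z) (u' - u) (y' - y) (w' - w) (z' - z)
        (GaP h u y w z + (Pf h u (pf h u y) - GaP h u y w z))
        (GaQ h u y w z + (4 * pf h u y - GaQ h u y w z))
        (GaR h u y w z + (w - GaR h u y w z)) (GaS h u y w z + (z - GaS h u y w z))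
        (GaP h u' y' w' z' + (Pf h u' (pf h u' y') - GaP h u' y' w' z'))
        (GaQ h u' y' w' z' + (4 * pf h u' y' - GaQ h u' y' w' z'))
        (GaR h u' y' w' z' + (w' - GaR h u' y' w' z'))
        (GaS h u' y' w' z' + (z' - GaS h u' y' w' z')) := by
      rw [e1, e2, e3, e4, e1', e2', e3', e4']
      refine le_trans ?_ hFdd
      have q1 := sq_nonneg (u' - u)
      have q2 := sq_nonneg (y' - y)
      have q3 := sq_nonneg (w' - w)
      have q4 := sq_nonneg (z' - z)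
      have q5 := kp_sq hw
      have q6 := kp_sq hz
      have q7 := kp_sq hw'
      have q8 := kp_sq hz'
      have q9 : h * (w ^ 2 + z ^ 2 + w' ^ 2 + z' ^ 2) ≤ 1 / 100 := by
        have r1 : h * (w ^ 2 + z ^ 2 + w' ^ 2 + z' ^ 2) ≤ h * (16 * K ^ 2) :=
          mul_le_mul_of_nonneg_left (by linarith only [q5, q6, q7, q8]) h0.le
        have r2 : (16:ℝ) / 10 ^ 60 ≤ 1 / 100 := by norm_num
        linarith only [hhK2, r1]
      have q10 := mul_le_mul_of_nonneg_right q9 (by linarith only [q1, q2] : 0 ≤ (u' - u) ^ 2 + (y' - y) ^ 2)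
      linarith only [hKs, q3, q4, q10]
    exact kp_I (m := mh h K u y w z) (a := u' - u) (b := y' - y) (c := w' - w)
      (d := z' - z) (A1 := GaP h u y w z) (A2 := GaQ h u y w z) (A3 := GaR h u y w z)
      (A4 := GaS h u y w z) (A1' := GaP h u' y' w' z') (A2' := GaQ h u' y' w' z')
      (A3' := GaR h u' y' w' z') (A4' := GaS h u' y' w' z')
      hK h0 hh hm0 hm had hbd hcd hdd hE0 hE1 hE0' hE1' hEd' ht ht' hdt
      hY hY1 le_rfl le_rfl hD hD' hA81 hA81'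
      (by unfold NN at hN; linarith only [hN]) (by unfold NN at hN'; linarith only [hN']) hcase hNpos hF hFaa
  · -- case II
    have hth : 0 < theta K u y w z := theta_pos_of_eta (by linarith only [hE1', hcase])
    have hmh : mh h K u y w z = mu u (pf h u y) := by
      unfold mh
      rw [if_pos hth]
    have HU : k2 u ≠ 0 ∨ k2 u' ≠ 0 → (u' - u) ^ 2 + (y' - y) ^ 2 ≤
        10 ^ 3 * Fs h u (pf h u y) u' (pf h u' y') := by
      intro hor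
      have q1 := Fs_wall_u hR h0 hRh hu hpR hu' hpR' (by
        rcases hor with h | h
        · exact Or.inl ((k2_facts (u' := u)).2.1 h)
        · exact Or.inr ((k2_facts (u' := u')).2.1 h))
      rw [hyf, hyf'] at q1
      linarith only [q1]
    have HV : k1 y ≠ 0 ∨ k1 y' ≠ 0 → (y' - y) ^ 2 + h * ((u' - u) ^ 2 *
        (1 + (4 * pf h u y) ^ 2 + (4 * pf h u' y') ^ 2)) ≤
        10 ^ 5 * Fs h u (pf h u y) u' (pf h u' y') := by
      intro hor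
      have q1 := Fs_wall_y hR h0 hRh hu hpR hu' hpR' (by
        rw [hyf, hyf']
        rcases hor with h | h
        · exact Or.inl ((k1_facts (y' := y)).2.1 h)
        · exact Or.inr ((k1_facts (y' := y')).2.1 h))
      rw [hyf, hyf'] at q1
      linarith only [q1]
    have hdpS := kp_dp (u := u) (u' := u') (y := y) (y' := y') hS rfl rfl HU (fun hor => by
      have q1 := HV hor
      have q2 : 0 ≤ h * ((u' - u) ^ 2 * (1 + (4 * pf h u y) ^ 2 + (4 * pf h u' y') ^ 2)) := by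
        positivity
      linarith only [q1, q2])
    have hF : Fs h u (pf h u y) u' (pf h u' y') + 3 / 4 * ((w' - w) ^ 2 + (z' - z) ^ 2)
        - h * (w ^ 2 + z ^ 2 + w' ^ 2 + z' ^ 2) * ((u' - u) ^ 2 + (y' - y) ^ 2) ≤
      Ker h (mh h K u y w z) (u' - u) (y' - y) (w' - w) (z' - z)
        (GaP h u y w z + (Pf h u (pf h u y) - GaP h u y w z))
        (GaQ h u y w z + (4 * pf h u y - GaQ h u y w z))
        (GaR h u y w z + (w - GaR h u y w z)) (GaS h u y w z + (z - GaS h u y w z))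
        (GaP h u' y' w' z' + (Pf h u' (pf h u' y') - GaP h u' y' w' z'))
        (GaQ h u' y' w' z' + (4 * pf h u' y' - GaQ h u' y' w' z'))
        (GaR h u' y' w' z' + (w' - GaR h u' y' w' z'))
        (GaS h u' y' w' z' + (z' - GaS h u' y' w' z')) := by
      rw [e1, e2, e3, e4, e1', e2', e3', e4', hFs, ← hmh]
      exact hFdd
    by_contra hcon
    have hle : Kab h K u y w z u' y' w' z' ≤ 0 := not_lt.1 hcon
    have hle' : Ker h (mh h K u y w z) (u' - u) (y' - y) (w' - w) (z' - z)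
      (GaP h u y w z + (eta K u y w z * (Pf h u (pf h u y) - GaP h u y w z)
        - tau h K u y w z * k2 u))
      (GaQ h u y w z + (eta K u y w z * (4 * pf h u y - GaQ h u y w z)
        - tau h K u y w z * k1 y))
      (GaR h u y w z + (eta K u y w z * (w - GaR h u y w z) - tau h K u y w z * w))
      (GaS h u y w z + (eta K u y w z * (z - GaS h u y w z) - tau h K u y w z * z))
      (GaP h u' y' w' z' + (eta K u' y' w' z' * (Pf h u' (pf h u' y') - GaP h u' y' w' z')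
        - tau h K u' y' w' z' * k2 u'))
      (GaQ h u' y' w' z' + (eta K u' y' w' z' * (4 * pf h u' y' - GaQ h u' y' w' z')
        - tau h K u' y' w' z' * k1 y'))
      (GaR h u' y' w' z' + (eta K u' y' w' z' * (w' - GaR h u' y' w' z')
        - tau h K u' y' w' z' * w'))
      (GaS h u' y' w' z' + (eta K u' y' w' z' * (z' - GaS h u' y' w' z')
        - tau h K u' y' w' z' * z')) ≤ 0 := hle
    have hyQ : |y| ≤ |4 * pf h u y| + 9 := by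
      have := abs_sub_abs_le_abs_sub y (4 * pf h u y)
      rw [abs_sub_comm] at this
      linarith only [hQ, this]
    have hyQ' : |y'| ≤ |4 * pf h u' y'| + 9 := by
      have := abs_sub_abs_le_abs_sub y' (4 * pf h u' y')
      rw [abs_sub_comm] at this
      linarith only [hQ', this]
    have key := kp_II (m := mh h K u y w z) (a := u' - u) (b := y' - y) (c := w' - w)
      (d := z' - z) (S := Fs h u (pf h u y) u' (pf h u' y')) (Q := 4 * pf h u y)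
      (Q' := 4 * pf h u' y')
      (A1 := GaP h u y w z) (A2 := GaQ h u y w z) (A3 := GaR h u y w z)
      (A4 := GaS h u y w z) (A1' := GaP h u' y' w' z') (A2' := GaQ h u' y' w' z')
      (A3' := GaR h u' y' w' z') (A4' := GaS h u' y' w' z')
      (p1 := k2 u) (p2 := k1 y) (p3 := w) (p4 := z) (p1' := k2 u') (p2' := k1 y') (p3' := w')
      (p4' := z')
      hK h0 hh hm0 hm hS had hbd hcd hdd hE0 hE1 hE0' hE1' hEd hEo.1 hEo.2 hEo'.1 hEo'.2 ht ht' hdt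
      hY hY1 rfl rfl hdpS HU HV hQs hQs'
      (kp_conv hE0 hE1 (a1.trans (by linarith only [hK])) hPs)
      (kp_conv hE0' hE1' (a1'.trans (by linarith only [hK])) hPs')
      (kp_conv hE0 hE1 (a2.trans (by linarith only [hyQ])) (by linarith only []))
      (kp_conv hE0' hE1' (a2'.trans (by linarith only [hyQ'])) (by linarith only []))
      (kp_conv hE0 hE1 a3 (by linarith only [abs_nonneg w]))
      (kp_conv hE0' hE1' a3' (by linarith only [abs_nonneg w']))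
      (kp_conv hE0 hE1 a4 (by linarith only [abs_nonneg z]))
      (kp_conv hE0' hE1' a4' (by linarith only [abs_nonneg z']))
      ((bd_k2_abs u).trans hu) ((bd_k2_abs u').trans hu')
      ((bd_k1_abs y).trans hyQ) ((bd_k1_abs y').trans hyQ')
      hw hw' hz hz' hD hD' hA81 hA81' hcase hF hFaa hle'
    obtain ⟨s1, s2, s3⟩ := key
    rcases mul_eq_zero.1 s3 with s4 | s4
    · -- the slice
      have q1 := sq_nonneg (k2 u)
      have q2 := sq_nonneg (k1 y)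
      have q3 := sq_nonneg w
      have q4 := sq_nonneg z
      have q1' := sq_nonneg (k2 u')
      have q2' := sq_nonneg (k1 y')
      have q3' := sq_nonneg w'
      have q4' := sq_nonneg z'
      have w0 : w = 0 := pow_eq_zero_iff (two_ne_zero) |>.1 (by linarith only [q3, s4, q1, q2, q4, q1', q2', q3', q4'])
      have z0 : z = 0 := pow_eq_zero_iff (two_ne_zero) |>.1 (by linarith only [q4, s4, q1, q2, q3, q1', q2', q3', q4'])
      have w0' : w' = 0 := pow_eq_zero_iff (two_ne_zero) |>.1 (by linarith only [q3', s4, q1, q2, q3, q4, q1', q2', q4'])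
      have z0' : z' = 0 := pow_eq_zero_iff (two_ne_zero) |>.1 (by linarith only [q4', s4, q1, q2, q3, q4, q1', q2', q3'])
      rcases Fs_eq_zero hR h0 hRh hu hpR hu' hpR' s1 with ⟨r1, r2⟩ | ⟨r1, r2, r3, r4⟩
      · apply hne
        refine ⟨r1, ?_, by rw [w0, w0'], by rw [z0, z0']⟩
        calc y' = yf h u' (pf h u' y') := hyf'.symm
          _ = y := by rw [r2, r1, hyf]
      · apply h01
        refine ⟨r1, ?_, w0, z0, r3, ?_, w0', z0'⟩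
        · rw [← hyf, r2, r1]
          unfold yf
          rw [om_of_mid le_rfl (by norm_num)]
          ring
        · rw [← hyf', r4, r3]
          unfold yf
          rw [om_of_mid (by norm_num) (by norm_num)]
          ring
    · linarith only [hNpos, s4]

end EC
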